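import Pool.Agent.TH60.LR.Chain

set_option autoImplicit false

namespace Pool.Agent.TH60.LR

open Pointwise

/-- The final assembly: all lemmas imply property (LR) for virtually free groups. -/
theorem lr_of (hC : CutsOfSplit) (hT : TreeOfCuts) (hE : ExtendHom) (hF : FinSplitOfFG)
    (hR : SplitRes) (hPr : SplitProd) (hB : SplitOfBasis) (hSelf : SplitSelf)
    (hFree : SplitOfFreeAction) (hBase : BaseHom) (hRet : RetractOfAction)
    (G : Type) [Group G] (h0 : ∃ F : Subgroup G, F.FiniteIndex ∧ IsFreeGroup F)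
    (H : Subgroup G) (hH : H.FG) :
    ∃ K : Subgroup G, K.FiniteIndex ∧ H ≤ K ∧
      ∃ ρ : K →* G, (∀ k : K, ρ k ∈ H) ∧
        ∀ h : G, ∀ hk : h ∈ K, h ∈ H → ρ ⟨h, hk⟩ = h := by
  obtain ⟨F, hFi, hFf⟩ := h0
  obtain ⟨N, hNdef⟩ : ∃ N, N = F.normalCore := ⟨_, rfl⟩
  have hNn : N.Normal := by rw [hNdef]; infer_instance
  have hNi : N.FiniteIndex := by rw [hNdef]; infer_instance
  have hNf : IsFreeGroup N := by
    have hle : N ≤ F := by rw [hNdef]; exact Subgroup.normalCore_le F
    exact isFree_of_injective (Subgroup.inclusion hle) (Subgroup.inclusion_injective hle)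
  let b := IsFreeGroup.basis N
  -- a finitely generated supergroup of H meeting all cosets of N
  have hfinQ : Finite (G ⧸ N) := inferInstance
  let Rs : Set G := Set.range (Quotient.out : G ⧸ N → G)
  have hRs : Rs.Finite := Set.finite_range (ι := G ⧸ N) _
  obtain ⟨K, hKdef⟩ : ∃ K, K = H ⊔ Subgroup.closure Rs := ⟨_, rfl⟩
  have hHK : H ≤ K := by rw [hKdef]; exact le_sup_left
  have hKfg : K.FG := by
    rw [hKdef]
    exact hH.sup ((Subgroup.fg_iff _).2 ⟨Rs, rfl, hRs⟩)
  have hKN : K ⊔ N = ⊤ := by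
    rw [eq_top_iff]
    intro g _
    have h1 : (Quotient.out (g : G ⧸ N) : G) ∈ K := by
      rw [hKdef]
      exact (le_sup_right : Subgroup.closure Rs ≤ H ⊔ Subgroup.closure Rs)
        (Subgroup.subset_closure ⟨_, rfl⟩)
    have h2 : (Quotient.out (g : G ⧸ N) : G)⁻¹ * g ∈ N := by
      rw [← QuotientGroup.eq]
      exact Quotient.out_eq _
    have h3 := (K ⊔ N).mul_mem ((le_sup_left : K ≤ K ⊔ N) h1) ((le_sup_right : N ≤ K ⊔ N) h2)
    simpa using h3
  -- K ⊓ N is finitely generated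
  obtain ⟨X, hXf, hX⟩ : ∃ X : Set G, X.Finite ∧ Subgroup.closure X = K ⊓ N := by
    have h1 : Group.FG K := (Group.fg_iff_subgroup_fg K).2 hKfg
    have h2 : Group.FG (N.subgroupOf K) := inferInstance
    have h3 : (N.subgroupOf K).FG := (Group.fg_iff_subgroup_fg _).1 h2
    obtain ⟨X, hX, hXf⟩ := (Subgroup.fg_iff _).1 h3
    refine ⟨K.subtype '' X, hXf.image _, ?_⟩
    rw [← MonoidHom.map_closure, hX, Subgroup.subgroupOf_map_subtype, inf_comm]
  have hXN : X ⊆ N := by
    intro x hx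
    have : x ∈ K ⊓ N := by rw [← hX]; exact Subgroup.subset_closure hx
    exact this.2
  obtain ⟨T₀, hT₀⟩ := exists_finset_NT_set b X hXf hXN
  have hKA : K ⊓ N ≤ NT b (T₀ : Set _) := by
    rw [← hX, Subgroup.closure_le]
    exact hT₀
  obtain ⟨D, hDdef⟩ : ∃ D, D = core K (NT b (T₀ : Set _)) := ⟨_, rfl⟩
  have hDA : D ≤ NT b (T₀ : Set _) := by rw [hDdef]; exact core_le K _
  have hDN : D ≤ N := hDA.trans (NT_le b _)
  have hDgood : GoodG N D := by
    rw [hDdef]; exact GoodG.core hR hPr K (good_NT b hB _) hKA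
  have hLD : K ⊓ N ≤ D := by
    rw [hDdef]
    intro x hx h hh
    have h1 : h⁻¹ * x * h ∈ K ⊓ N := by
      refine ⟨K.mul_mem (K.mul_mem (K.inv_mem hh) hx.1) hh, ?_⟩
      have := Subgroup.Normal.conj_mem hNn _ hx.2 h⁻¹
      simpa using this
    exact hKA h1
  have hDconj : ∀ k ∈ K, ∀ x ∈ D, k⁻¹ * x * k ∈ D := by
    rw [hDdef]
    intro k hk x hx
    exact core_conj hk hx
  have hbot : NT b (∅ : Set (IsFreeGroup.Generators N)) = ⊥ := by
    unfold NT
    rw [Set.image_empty, Subgroup.closure_empty]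
  obtain ⟨FD, hFDf, hFD⟩ := rel_fg b hC hT hE hF hR ∅ T₀ D hDgood (by rw [hbot]; exact bot_le)
    (by rw [Set.empty_union]; exact hDA)
  obtain ⟨M, hMdef⟩ : ∃ M, M = D ⊔ K := ⟨_, rfl⟩
  have hMN : M ⊓ N = D := by rw [hMdef]; exact sup_inf_eq hDconj hLD hDN
  have hKM : K ≤ M := by rw [hMdef]; exact le_sup_right
  have hHM : H ≤ M := hHK.trans hKM
  have hMfg : M.FG := by
    rw [hMdef, hFD, hbot, bot_sup_eq]
    exact ((Subgroup.fg_iff _).2 ⟨FD, rfl, hFDf⟩ : (Subgroup.closure FD).FG).sup hKfg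
  have hMFG : Group.FG M := (Group.fg_iff_subgroup_fg M).2 hMfg
  have hN'f : IsFreeGroup (N.subgroupOf M) := by
    let j : N.subgroupOf M →* N :=
      { toFun := fun x => ⟨((x : M) : G), x.2⟩
        map_one' := rfl
        map_mul' := fun _ _ => rfl }
    refine isFree_of_injective j ?_
    intro x y hxy
    have := congrArg (fun z : N => (z : G)) hxy
    exact Subtype.ext (Subtype.ext this)
  -- split data for the action of N' on M
  have hsplit : HasSplit (N.subgroupOf M) M := by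
    let rep : M → M := fun g => Quotient.out (Quotient.mk (QuotientGroup.rightRel (N.subgroupOf M)) g)
    have hrep : ∀ g : M, g * (rep g)⁻¹ ∈ N.subgroupOf M := by
      intro g
      have h1 : (QuotientGroup.rightRel (N.subgroupOf M)) (rep g) g := Quotient.mk_out g
      rw [QuotientGroup.rightRel_apply] at h1
      exact h1
    have hrepn : ∀ (n : N.subgroupOf M) (g : M), rep (n • g) = rep g := by
      intro n g
      have h1 : (Quotient.mk (QuotientGroup.rightRel (N.subgroupOf M)) (n • g)) =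
          Quotient.mk (QuotientGroup.rightRel (N.subgroupOf M)) g := by
        apply Quotient.sound
        show (QuotientGroup.rightRel (N.subgroupOf M)) (n • g) g
        rw [QuotientGroup.rightRel_apply]
        have e : g * (n • g)⁻¹ = ((n : M))⁻¹ := by
          show g * ((n : M) * g)⁻¹ = _
          group
        rw [e]
        exact (N.subgroupOf M).inv_mem n.2
      show Quotient.out (Quotient.mk (QuotientGroup.rightRel (N.subgroupOf M)) (n • g)) =
        Quotient.out (Quotient.mk (QuotientGroup.rightRel (N.subgroupOf M)) g)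
      rw [h1]
    refine hFree (N.subgroupOf M) M (hSelf _) (fun g => ⟨g * (rep g)⁻¹, hrep g⟩) ?_ ⟨1⟩
    intro n g
    apply Subtype.ext
    show (n • g) * (rep (n • g))⁻¹ = (n : M) * (g * (rep g)⁻¹)
    rw [hrepn, ← mul_assoc]
    rfl
  have htop : ∃ FM : Set M, FM.Finite ∧ Subgroup.closure FM = ⊤ := by
    obtain ⟨FM, h1, h2⟩ := Group.fg_iff.1 hMFG
    exact ⟨FM, h2, h1⟩
  obtain ⟨FM, hFMf, hFM⟩ := htop
  have hfs : HasFinSplit (N.subgroupOf M) M := by
    refine hF M M (N.subgroupOf M) hsplit 1 (fun v => ⟨v, by simp⟩) FM hFMf ?_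
    rw [hFM, sup_top_eq]
  have htf := free_sub_tf (N.subgroupOf M)
  obtain ⟨T, ι, i1, i2, i3, i4⟩ := gtree_of_split hC hT (N.subgroupOf M) htf hfs
  let π : M →* G ⧸ N := (QuotientGroup.mk' N).comp M.subtype
  have hπ : ∀ n : M, π n = 1 → n ∈ N.subgroupOf M := by
    intro n hn
    rw [Subgroup.mem_subgroupOf]
    exact (QuotientGroup.eq_one_iff (N := N) (n : G)).1 hn
  obtain ⟨P, act, hPfree, hPfin, y, Φ₀Q, Φ, hloc, hy⟩ := hBase M (G ⧸ N) H π T (ι 1)
    (by
      intro n hn x hx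
      by_contra hne
      refine i4 n (hπ n hn) ?_ x hx
      intro k hk v hv
      have h1 : n ^ k = 1 := by
        have : n ^ k * v = v := hv
        exact mul_eq_right.1 this
      exact hne (htf n (hπ n hn) k hk h1))
    (fun n hn e he => i3 n (hπ n hn) e he)
    (fun n hn h2 => htf n (hπ n hn) 2 (by norm_num) (by rw [pow_two]; exact h2))
    (Subgroup.inclusion hHM) (Subgroup.inclusion_injective hHM)
    ((Group.fg_iff_subgroup_fg H).2 hH)
  let Φ₀ : G →* Cent H P := Φ₀Q.comp (QuotientGroup.mk' N)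
  obtain ⟨P₁, hP₁, hdom, hmem⟩ := graph_isPH (Φ₀ := Φ₀) M Φ hloc
  have hMgood : GoodG N (dom P₁) := by
    rw [hdom]
    exact hDgood.congr (by rw [hMN, inf_eq_left.2 hDN])
  obtain ⟨P₂, q1, q2, S'', q3, -⟩ := chain_step b hC hT hE hF hR hPr hB K hKN Φ₀ P₁ hP₁
    (by rw [hdom]; exact hKM) hMgood ∅ (by rw [hbot]; exact bot_le)
    (by
      intro k _ x hx
      rw [hbot, Subgroup.mem_bot] at hx
      subst hx
      rw [hbot, Subgroup.mem_bot]
      group) T₀ (by rw [hdom, hMN, Set.empty_union]; exact hDA) ∅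
  obtain ⟨Φ', r1, -⟩ := exists_total b hC hT hE hF hR hPr hB K hKN Φ₀ P₂ q2
    (by
      have : dom P₁ ≤ dom P₂ := dom_mono q1
      rw [hdom] at this
      exact hKM.trans this) S'' q3
  refine hRet G H P hPfree hPfin Φ' y ?_
  intro h
  have h1 : Φ' (h : G) = Φ (Subgroup.inclusion hHM h) := by
    apply r1
    apply q1
    rw [hmem]
    exact ⟨hHM h.2, rfl⟩
  rw [h1]
  exact hy h

end Pool.Agent.TH60.LR
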