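import Mathlib

set_option autoImplicit false

namespace Pool.Agent.TH60.LR

open Pointwise

/-! ## Cuts of graphs -/

/-- Ordered edge boundary of a set of vertices of the graph `adj`. -/
def bdry {V : Type} (adj : V → V → Prop) (A : Set V) : Set (V × V) :=
  {p | adj p.1 p.2 ∧ p.1 ∈ A ∧ p.2 ∉ A}

/-- `A` induces a connected subgraph (no division of `A` without an edge between the parts). -/
def Conn {V : Type} (adj : V → V → Prop) (A : Set V) : Prop :=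
  ∀ B : Set V, B ⊆ A → B.Nonempty → (A \ B).Nonempty → ∃ x ∈ B, ∃ y ∈ A \ B, adj x y

/-- Nested sets. -/
def Nested {V : Type} (A B : Set V) : Prop := A ⊆ B ∨ B ⊆ A ∨ A ⊆ Bᶜ ∨ Aᶜ ⊆ B

/-! ## Split data: the augmentation module of `ℤ[V]` is projective over `ℤ[N]` -/

/-- Split data for an `N`-set `V`: a free `N`-set `E` of oriented edges `o e → t e` on `V` and an
additive, equivariant choice `D u v` of integral 1-chains with boundary `u - v`. -/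
structure SplitData (N V : Type) [Group N] [MulAction N V] where
  E : Type
  act : MulAction N E
  o : E → V
  t : E → V
  D : V → V → (E →₀ ℤ)
  free : ∀ (n : N) (e : E), n • e = e → n = 1
  o_smul : ∀ (n : N) (e : E), o (n • e) = n • o e
  t_smul : ∀ (n : N) (e : E), t (n • e) = n • t e
  D_add : ∀ u v w : V, D u v + D v w = D u w
  D_smul : ∀ (n : N) (u v : V) (e : E), D (n • u) (n • v) (n • e) = D u v e
  bd : ∀ u v : V, ((D u v).sum fun e c => Finsupp.single (t e) c - Finsupp.single (o e) c) =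
    Finsupp.single u (1 : ℤ) - Finsupp.single v (1 : ℤ)

attribute [instance] SplitData.act

/-- The `N`-set `V` has split data. -/
def HasSplit (N V : Type) [Group N] [MulAction N V] : Prop := Nonempty (SplitData N V)

/-- The `N`-set `V` has split data with finitely many orbits of edges. -/
def HasFinSplit (N V : Type) [Group N] [MulAction N V] : Prop :=
  ∃ d : SplitData N V, ∃ F : Set d.E, F.Finite ∧ ∀ e : d.E, ∃ n : N, n • e ∈ F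

/-! ## Trees with a group action, given by their half-trees -/

/-- A tree with a `Γ`-action: vertices `X`, oriented edges `E` with reversal `inv`, end point `t e`
of the edge `e`, and `side e` the set of vertices on the side of the end of `e`. -/
structure GTree (Γ : Type) [Group Γ] where
  X : Type
  E : Type
  actX : MulAction Γ X
  actE : MulAction Γ E
  inv : E → E
  t : E → X
  side : E → Set X
  inv_inv : ∀ e, inv (inv e) = e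
  side_inv : ∀ e, side (inv e) = (side e)ᶜ
  fin_sep : ∀ x y, {e | x ∈ side e ∧ y ∉ side e}.Finite
  sep : ∀ x y, x ≠ y → ∃ e, x ∈ side e ∧ y ∉ side e
  t_mem : ∀ e, t e ∈ side e
  t_inv : ∀ e f, f ≠ e → f ≠ inv e → (t e ∈ side f ↔ t (inv e) ∈ side f)
  nested : ∀ e f, side e ⊆ side f ∨ side f ⊆ side e ∨ side e ⊆ (side f)ᶜ ∨ (side e)ᶜ ⊆ side f
  smul_inv : ∀ (g : Γ) (e : E), g • inv e = inv (g • e)
  smul_t : ∀ (g : Γ) (e : E), g • t e = t (g • e)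
  smul_side : ∀ (g : Γ) (e : E) (x : X), g • x ∈ side (g • e) ↔ x ∈ side e

attribute [instance] GTree.actX GTree.actE

/-! ## Homomorphisms which are locally conjugate -/

/-- `Φ` and `Φ₀` are conjugate on every finite subgroup. -/
def LocConj {Γ W : Type} [Group Γ] [Group W] (Φ Φ₀ : Γ →* W) : Prop :=
  ∀ C : Subgroup Γ, Finite C → ∃ a : W, ∀ c ∈ C, Φ c = a * Φ₀ c * a⁻¹

/-- The group of permutations of `P` commuting with the action of `H`. -/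
def Cent (H P : Type) [Group H] [MulAction H P] : Subgroup (Equiv.Perm P) where
  carrier := {σ | ∀ (h : H) (p : P), σ (h • p) = h • σ p}
  one_mem' := fun _ _ => rfl
  mul_mem' := by
    intro a b ha hb h p
    show a (b (h • p)) = h • a (b p)
    rw [hb, ha]
  inv_mem' := by
    intro a ha h p
    show a.symm (h • p) = h • a.symm p
    rw [Equiv.symm_apply_eq, ha, Equiv.apply_symm_apply]

/-! ## Statements of the lemmas -/

/-- The `Γ`-invariant graph spanned by the edges of split data of a subgroup `N`. -/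
def SplitData.adj {Γ V : Type} [Group Γ] [MulAction Γ V] {N : Subgroup Γ} (d : SplitData N V) :
    V → V → Prop :=
  fun u v => ∃ (g : Γ) (e : d.E), (u = g • d.o e ∧ v = g • d.t e) ∨ (u = g • d.t e ∧ v = g • d.o e)

/-- LR-1 -/
def TightFinite : Prop :=
  ∀ (V : Type) (n : ℕ) (adj : V → V → Prop), (∀ x y, adj x y → adj y x) → ∀ x y : V,
    {A : Set V | Conn adj A ∧ Conn adj Aᶜ ∧ x ∈ A ∧ y ∉ A ∧ (bdry adj A).Finite ∧
      (bdry adj A).ncard ≤ n}.Finite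

/-- LR-2 -/
def NestedCuts : Prop :=
  ∀ (V : Type) (adj : V → V → Prop), (∀ x y, adj x y → adj y x) →
    (∀ x y, Relation.ReflTransGen adj x y) → ∀ n₀ : ℕ,
    ∃ 𝓔 : Set (Set V),
      (∀ σ : Equiv.Perm V, (∀ x y, adj (σ x) (σ y) ↔ adj x y) → ∀ A ∈ 𝓔, σ '' A ∈ 𝓔) ∧
      (∀ A ∈ 𝓔, Aᶜ ∈ 𝓔) ∧ (∀ A ∈ 𝓔, A.Nonempty) ∧ (∀ A ∈ 𝓔, (bdry adj A).Finite) ∧
      (∀ A ∈ 𝓔, ∀ B ∈ 𝓔, Nested A B) ∧
      (∀ u v : V, {A | A ∈ 𝓔 ∧ u ∈ A ∧ v ∉ A}.Finite) ∧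
      (∀ φ ψ : Filter V, φ.NeBot → ψ.NeBot →
        (∀ A : Set V, (bdry adj A).Finite → A ∈ φ ∨ Aᶜ ∈ φ) →
        (∀ A : Set V, (bdry adj A).Finite → A ∈ ψ ∨ Aᶜ ∈ ψ) →
        (∃ A : Set V, (bdry adj A).Finite ∧ (bdry adj A).ncard ≤ n₀ ∧ A ∈ φ ∧ Aᶜ ∈ ψ) →
        ∃ A ∈ 𝓔, A ∈ φ ∧ Aᶜ ∈ ψ)

/-- LR-3a -/
def AdjConnected : Prop :=
  ∀ (Γ V : Type) [Group Γ] [MulAction Γ V] (N : Subgroup Γ) (d : SplitData N V) (u v : V),
    Relation.ReflTransGen d.adj u v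

/-- LR-3b -/
def LevelBound : Prop :=
  ∀ (Γ V : Type) [Group Γ] [MulAction Γ V] (N : Subgroup Γ) [N.FiniteIndex]
    (d : SplitData N V) (F : Set d.E), F.Finite → (∀ e : d.E, ∃ n : N, n • e ∈ F) →
    ∃ n₀ : ℕ, ∀ (w : V) (e : d.E) (k : ℤ),
      (bdry d.adj {v | d.D v w e = k}).Finite ∧ (bdry d.adj {v | d.D v w e = k}).ncard ≤ n₀

/-- LR-4 -/
def EndsSeparated : Prop :=
  ∀ (N V : Type) [Group N] [MulAction N V] (d : SplitData N V) (n : N),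
    (∀ k : ℕ, 0 < k → ∀ v : V, n ^ k • v ≠ v) → ∀ v : V,
    ∃ (e : d.E) (k : ℤ), (∀ᶠ i : ℕ in Filter.atTop, d.D (n ^ i • v) v e = k) ∧
      (∀ᶠ i : ℕ in Filter.atTop, d.D (n⁻¹ ^ i • v) v e ≠ k)

/-- LR-5 -/
def CutsOfSplit : Prop :=
  ∀ (Γ V : Type) [Group Γ] [MulAction Γ V] (N : Subgroup Γ) [N.Normal] [N.FiniteIndex],
    (∀ n ∈ N, ∀ k : ℕ, 0 < k → n ^ k = 1 → n = 1) → HasFinSplit N V →
    ∃ 𝓔 : Set (Set V),
      (∀ g : Γ, ∀ A ∈ 𝓔, g • A ∈ 𝓔) ∧ (∀ A ∈ 𝓔, Aᶜ ∈ 𝓔) ∧ (∀ A ∈ 𝓔, A.Nonempty) ∧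
      (∀ A ∈ 𝓔, ∀ B ∈ 𝓔, Nested A B) ∧
      (∀ u v : V, {A | A ∈ 𝓔 ∧ u ∈ A ∧ v ∉ A}.Finite) ∧
      (∀ u v : V, u ≠ v → ∃ A ∈ 𝓔, u ∈ A ∧ v ∉ A) ∧
      (∀ A ∈ 𝓔, ∀ n ∈ N, n • A = A → n = 1) ∧
      (∀ n ∈ N, (∀ k : ℕ, 0 < k → ∀ v : V, n ^ k • v ≠ v) → ∀ v : V, ∃ A ∈ 𝓔,
        (∀ᶠ i : ℕ in Filter.atTop, n ^ i • v ∈ A) ∧ (∀ᶠ i : ℕ in Filter.atTop, n⁻¹ ^ i • v ∉ A))

/-- LR-6 -/
def TreeOfCuts : Prop :=
  ∀ (Γ V : Type) [Group Γ] [MulAction Γ V] [Nonempty V] (𝓔 : Set (Set V)),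
    (∀ g : Γ, ∀ A ∈ 𝓔, g • A ∈ 𝓔) → (∀ A ∈ 𝓔, Aᶜ ∈ 𝓔) → (∀ A ∈ 𝓔, A.Nonempty) →
    (∀ A ∈ 𝓔, ∀ B ∈ 𝓔, Nested A B) →
    (∀ u v : V, {A | A ∈ 𝓔 ∧ u ∈ A ∧ v ∉ A}.Finite) →
    (∀ u v : V, u ≠ v → ∃ A ∈ 𝓔, u ∈ A ∧ v ∉ A) →
    ∃ (T : GTree Γ) (ι : V → T.X) (κ : T.E → Set V), Function.Injective ι ∧
      (∀ (g : Γ) (v : V), ι (g • v) = g • ι v) ∧ (∀ e, κ e ∈ 𝓔) ∧
      (∀ (g : Γ) (e : T.E), κ (g • e) = g • κ e) ∧
      (∀ (g : Γ) (v : V) (A : Set V), A ∈ 𝓔 → (∀ᶠ i : ℕ in Filter.atTop, g ^ i • v ∈ A) →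
        (∀ᶠ i : ℕ in Filter.atTop, g⁻¹ ^ i • v ∉ A) → ∀ x : T.X, g • x ≠ x)

/-- LR-7a -/
def TreeConnected : Prop :=
  ∀ (Γ : Type) [Group Γ] (T : GTree Γ) (p : T.X → Prop) (x₀ : T.X), p x₀ →
    (∀ e : T.E, p (T.t (T.inv e)) → p (T.t e)) → ∀ x, p x

/-- LR-7b -/
def TreePotential : Prop :=
  ∀ (Γ : Type) [Group Γ] (T : GTree Γ) (W : Type) [Group W] (β : T.E → W),
    (∀ e, β (T.inv e) = (β e)⁻¹) →
    ∃ f : T.X → W, ∀ e, f (T.t e) = f (T.t (T.inv e)) * β e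

/-- LR-8 -/
def TreeFixedPoint : Prop :=
  ∀ (Γ : Type) [Group Γ] (T : GTree Γ), Nonempty T.X → ∀ (C : Subgroup Γ), Finite C →
    (∃ x : T.X, ∀ c ∈ C, c • x = x) ∨ (∃ e : T.E, ∀ c ∈ C, c • e = e ∨ c • e = T.inv e)

/-- LR-9 -/
def PathHom : Prop :=
  ∀ (Γ : Type) [Group Γ] (T : GTree Γ) (W : Type) [Group W] (Φ₀ : Γ →* W)
    (α : T.E → W) (ω : Γ → T.X → W),
    (∀ (g h : Γ) (x : T.X), ω (g * h) x = ω g (h • x) * ω h x) →
    (∀ (g : Γ) (e : T.E), ω g (T.t e) * α e = α (g • e) * Φ₀ g) → ∀ x₀ : T.X,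
    ∃ (Φ : Γ →* W) (R : T.X → T.X → W),
      (∀ x y z, R x y * R y z = R x z) ∧
      (∀ e, R (T.t (T.inv e)) (T.t e) = α (T.inv e) * (α e)⁻¹) ∧
      (∀ g x y, ω g x * R x y = R (g • x) (g • y) * ω g y) ∧
      (∀ g, Φ g = R x₀ (g • x₀) * ω g x₀) ∧
      (∀ C : Subgroup Γ, Finite C →
        (∃ a : W, ∀ c ∈ C, Φ c = a * Φ₀ c * a⁻¹) ∨
        ∃ (x : T.X) (a : W), (∀ c ∈ C, c • x = x) ∧ ∀ c ∈ C, Φ c = a * ω c x * a⁻¹)

/-- LR-10 -/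
def ExtendHom : Prop :=
  ∀ (Γ W : Type) [Group Γ] [Group W] (T : GTree Γ) (x₀ : T.X) (M : Subgroup Γ),
    (∀ g : Γ, g • x₀ = x₀ ↔ g ∈ M) → (∀ e : T.E, Finite (MulAction.stabilizer Γ e)) →
    ∀ (Φ₀ : Γ →* W) (Φ : M →* W), LocConj Φ (Φ₀.comp M.subtype) →
    ∃ Φ' : Γ →* W, (∀ m : M, Φ' m = Φ m) ∧ LocConj Φ' Φ₀

/-- LR-11 -/
def BaseHom : Prop :=
  ∀ (Γ Q H : Type) [Group Γ] [Group Q] [Finite Q] [Group H] (π : Γ →* Q)
    (T : GTree Γ) (x₀ : T.X), (∀ n : Γ, π n = 1 → ∀ x : T.X, n • x = x → n = 1) →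
    (∀ n : Γ, π n = 1 → ∀ e : T.E, n • e = e → n = 1) →
    (∀ n : Γ, π n = 1 → n * n = 1 → n = 1) → ∀ (j : H →* Γ), Function.Injective j →
    Group.FG H →
    ∃ (P : Type) (_ : MulAction H P), (∀ (h : H) (p : P), h • p = p → h = 1) ∧
      Finite (Quotient (MulAction.orbitRel H P)) ∧
      ∃ (y : P) (Φ₀ : Q →* Cent H P) (Φ : Γ →* Cent H P),
        LocConj Φ (Φ₀.comp π) ∧ ∀ h : H, (Φ (j h) : Equiv.Perm P) (h • y) = y

/-- LR-12 -/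
def RetractOfAction : Prop :=
  ∀ (G : Type) [Group G] (H : Subgroup G) (P : Type) [MulAction H P],
    (∀ (h : H) (p : P), h • p = p → h = 1) →
    Finite (Quotient (MulAction.orbitRel H P)) → ∀ (Φ : G →* Cent H P) (y : P),
    (∀ h : H, (Φ (h : G) : Equiv.Perm P) (h • y) = y) →
    ∃ K : Subgroup G, K.FiniteIndex ∧ H ≤ K ∧
      ∃ ρ : K →* G, (∀ k : K, ρ k ∈ H) ∧ ∀ h : G, ∀ hk : h ∈ K, h ∈ H → ρ ⟨h, hk⟩ = h

/-- LR-13a -/
def SplitOfBasis : Prop :=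
  ∀ (N ι : Type) [Group N] (b : FreeGroupBasis ι N) (T : Set ι),
    HasSplit N (N ⧸ Subgroup.closure (b '' T))

/-- LR-13b -/
def SplitSelf : Prop := ∀ (N : Type) [Group N] [IsFreeGroup N], HasSplit N N

/-- LR-14 -/
def SplitRes : Prop :=
  ∀ (N V N' V' : Type) [Group N] [MulAction N V] [Group N'] [MulAction N' V']
    [IsFreeGroup N'] [Nonempty V'], HasSplit N V → ∀ (j : N' →* N), Function.Injective j →
    ∀ ι : V' → V, Function.Injective ι → (∀ (n : N') (v : V'), ι (n • v) = j n • ι v) →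
    HasSplit N' V'

/-- LR-15 -/
def SplitProd : Prop :=
  ∀ (N V₁ V₂ : Type) [Group N] [MulAction N V₁] [MulAction N V₂],
    HasSplit N V₁ → HasSplit N V₂ → HasSplit N (V₁ × V₂)

/-- LR-16 -/
def SplitOfFreeAction : Prop :=
  ∀ (N V : Type) [Group N] [MulAction N V], HasSplit N N →
    ∀ p : V → N, (∀ (n : N) (v : V), p (n • v) = n * p v) → Nonempty V → HasSplit N V

/-- LR-17 -/
def FinSplitOfFG : Prop :=
  ∀ (Γ V : Type) [Group Γ] [MulAction Γ V] (N : Subgroup Γ) [N.FiniteIndex],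
    HasSplit N V → ∀ v₀ : V, (∀ v : V, ∃ g : Γ, g • v₀ = v) → ∀ F : Set Γ, F.Finite →
    MulAction.stabilizer Γ v₀ ⊔ Subgroup.closure F = ⊤ → HasFinSplit N V

end Pool.Agent.TH60.LR
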