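import Pool.Agent.TH60.LR.Part

set_option autoImplicit false

namespace Pool.Agent.TH60.LR

open Pointwise

section chain

variable {G W : Type} [Group G] [Group W] {N : Subgroup G} {ι : Type}

/-- subgroup generated by a part of a basis of `N` -/
def NT (b : FreeGroupBasis ι N) (T : Set ι) : Subgroup G :=
  Subgroup.closure ((fun i => ((b i : N) : G)) '' T)

variable (b : FreeGroupBasis ι N)

theorem NT_mono {S T : Set ι} (h : S ⊆ T) : NT b S ≤ NT b T :=
  Subgroup.closure_mono (Set.image_mono h)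

theorem NT_union (S T : Set ι) : NT b (S ∪ T) = NT b S ⊔ NT b T := by
  unfold NT
  rw [Set.image_union, Subgroup.closure_union]

theorem mem_NT {S : Set ι} {i : ι} (h : i ∈ S) : ((b i : N) : G) ∈ NT b S :=
  Subgroup.subset_closure ⟨i, h, rfl⟩

theorem NT_eq_map (T : Set ι) : NT b T = (Subgroup.closure (b '' T)).map N.subtype := by
  unfold NT
  rw [MonoidHom.map_closure, Set.image_image]
  rfl

theorem NT_le (T : Set ι) : NT b T ≤ N := by
  rw [NT_eq_map]
  exact Subgroup.map_subtype_le _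

theorem NT_univ : NT b Set.univ = N := by
  apply le_antisymm (NT_le b _)
  intro x hx
  have h1 : ∀ y : FreeGroup ι, ((b.repr.symm y : N) : G) ∈ NT b Set.univ := by
    intro y
    induction y using FreeGroup.induction_on with
    | C1 => rw [map_one]; exact (NT b _).one_mem
    | of i => exact mem_NT b (Set.mem_univ i)
    | inv_of i hi =>
      rw [map_inv]
      exact (NT b _).inv_mem hi
    | mul x y hx hy =>
      rw [map_mul]
      exact (NT b _).mul_mem hx hy
  have := h1 (b.repr ⟨x, hx⟩)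
  rw [MulEquiv.symm_apply_apply] at this
  exact this

theorem exists_finset_NT (x : G) (hx : x ∈ N) : ∃ T : Finset ι, x ∈ NT b (T : Set ι) := by
  classical
  rw [← NT_univ b] at hx
  unfold NT at hx
  induction hx using Subgroup.closure_induction with
  | mem x hx =>
    obtain ⟨i, -, rfl⟩ := hx
    exact ⟨{i}, mem_NT b (by simp)⟩
  | one => exact ⟨∅, Subgroup.one_mem _⟩
  | mul x y _ _ hx hy =>
    obtain ⟨S, hS⟩ := hx
    obtain ⟨T, hT⟩ := hy
    exact ⟨S ∪ T, Subgroup.mul_mem _ (NT_mono b (by simp) hS) (NT_mono b (by simp) hT)⟩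
  | inv x _ hx =>
    obtain ⟨S, hS⟩ := hx
    exact ⟨S, Subgroup.inv_mem _ hS⟩

theorem exists_finset_NT_set (X : Set G) (hXf : X.Finite) (hX : X ⊆ N) :
    ∃ T : Finset ι, X ⊆ NT b (T : Set ι) := by
  classical
  induction X, hXf using Set.Finite.induction_on with
  | empty => exact ⟨∅, Set.empty_subset _⟩
  | @insert x X _ _ ih =>
    obtain ⟨S, hS⟩ := ih (fun y hy => hX (Set.mem_insert_of_mem _ hy))
    obtain ⟨T, hT⟩ := exists_finset_NT b x (hX (Set.mem_insert _ _))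
    refine ⟨S ∪ T, ?_⟩
    intro y hy
    rcases hy with rfl | hy
    · exact NT_mono b (by simp) hT
    · exact NT_mono b (by simp) (hS hy)

theorem good_NT (hB : SplitOfBasis) (T : Set ι) : GoodG N (NT b T) := by
  have h := hB N ι b T
  refine hs_congr ?_ h
  rw [NT_eq_map]
  exact (Subgroup.comap_map_eq_self_of_injective (Subgroup.subtype_injective N) _).symm

theorem isFree_of_le [IsFreeGroup N] {A : Subgroup G} (h : A ≤ N) : IsFreeGroup A :=
  isFree_of_injective (Subgroup.inclusion h) (Subgroup.inclusion_injective h)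

/-- a good subgroup between `NT S` and `NT (S ∪ T)`, `T` finite, is finitely generated over
`NT S`. -/
theorem rel_fg (hC : CutsOfSplit) (hT : TreeOfCuts) (hE : ExtendHom) (hF : FinSplitOfFG)
    (hR : SplitRes) [IsFreeGroup N] (S : Set ι) (T : Finset ι) (D : Subgroup G)
    (hD : GoodG N D) (h1 : NT b S ≤ D) (h2 : D ≤ NT b (S ∪ T)) :
    ∃ F : Set G, F.Finite ∧ D = NT b S ⊔ Subgroup.closure F := by
  obtain ⟨A, hA⟩ : ∃ A, A = NT b (S ∪ T) := ⟨_, rfl⟩
  rw [← hA] at h2
  have hAN : A ≤ N := by rw [hA]; exact NT_le b _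
  have : IsFreeGroup A := isFree_of_le hAN
  have hg : HasSplit A (A ⧸ D.subgroupOf A) := hD.sub hR hAN
  let FB : Set A := (fun x : A => (x : G)) ⁻¹' ((fun i => ((b i : N) : G)) '' (T : Set ι))
  have hFBf : FB.Finite :=
    ((Finset.finite_toSet T).image _).preimage (Set.injOn_of_injective Subtype.val_injective)
  have hTA : (fun i => ((b i : N) : G)) '' (T : Set ι) ⊆ A := by
    rintro _ ⟨i, hi, rfl⟩
    rw [hA]
    exact mem_NT b (Or.inr hi)
  have hgen : D.subgroupOf A ⊔ Subgroup.closure FB = ⊤ := by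
    apply Subgroup.map_injective (Subgroup.subtype_injective A)
    rw [Subgroup.map_sup, Subgroup.map_subgroupOf_eq_of_le h2, MonoidHom.map_closure,
      ← MonoidHom.range_eq_map, Subgroup.range_subtype]
    have e : (A.subtype : A → G) '' FB = (fun i => ((b i : N) : G)) '' (T : Set ι) := by
      ext x
      constructor
      · rintro ⟨y, hy, rfl⟩
        exact hy
      · intro hx
        exact ⟨⟨x, hTA hx⟩, hx, rfl⟩
    rw [e]
    apply le_antisymm
    · apply sup_le h2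
      rw [Subgroup.closure_le]
      exact hTA
    · rw [hA, NT_union]
      exact sup_le_sup h1 le_rfl
  obtain ⟨ρ, hρ⟩ := good_retract hC hT hE hF hR (D.subgroupOf A) hg FB hFBf hgen
  let f : A →* G := A.subtype.comp ((D.subgroupOf A).subtype.comp ρ)
  have hfD : ∀ a : A, f a ∈ D := fun a => (ρ a).2
  have hfd : ∀ a : A, (a : G) ∈ D → f a = a := by
    intro a ha
    have := hρ ⟨a, ha⟩
    show (((ρ a : D.subgroupOf A) : A) : G) = a
    rw [show ρ a = ⟨a, ha⟩ from this]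
  refine ⟨f '' FB, hFBf.image _, ?_⟩
  apply le_antisymm
  · have htop : (NT b S ⊔ Subgroup.closure (f '' FB)).comap f = ⊤ := by
      have hcl : Subgroup.closure
          ((fun x : A => (x : G)) ⁻¹' ((fun i => ((b i : N) : G)) '' (S ∪ T : Set ι))) = ⊤ := by
        subst hA
        exact Subgroup.closure_closure_coe_preimage
      rw [eq_top_iff, ← hcl, Subgroup.closure_le]
      rintro ⟨x, hx⟩ hx'
      obtain ⟨i, hi, hix⟩ := hx'
      simp only at hix
      subst hix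
      rw [SetLike.mem_coe, Subgroup.mem_comap]
      rcases hi with hi | hi
      · rw [hfd _ (h1 (mem_NT b hi))]
        exact (le_sup_left : NT b S ≤ _) (mem_NT b hi)
      · exact (le_sup_right : Subgroup.closure (f '' FB) ≤ NT b S ⊔ Subgroup.closure (f '' FB))
          (Subgroup.subset_closure ⟨_, ⟨i, hi, rfl⟩, rfl⟩)
    intro x hx
    have h3 : (⟨x, h2 hx⟩ : A) ∈ (NT b S ⊔ Subgroup.closure (f '' FB)).comap f := by
      rw [htop]; trivial
    rw [Subgroup.mem_comap, hfd _ hx] at h3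
    exact h3
  · apply sup_le h1
    rw [Subgroup.closure_le]
    rintro _ ⟨a, _, rfl⟩
    exact hfD a

/-- If `K` normalizes `D` then `(D ⊔ K) ⊓ N = D` as soon as `K ⊓ N ≤ D ≤ N`. -/
theorem sup_inf_eq {D K : Subgroup G} (hn : ∀ k ∈ K, ∀ x ∈ D, k⁻¹ * x * k ∈ D)
    (h1 : K ⊓ N ≤ D) (h2 : D ≤ N) : (D ⊔ K) ⊓ N = D := by
  apply le_antisymm
  · rintro x ⟨hx, hxN⟩
    have key : D ⊔ K ≤
        { carrier := {x | ∃ d ∈ D, ∃ k ∈ K, x = d * k}
          one_mem' := ⟨1, D.one_mem, 1, K.one_mem, by simp⟩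
          mul_mem' := by
            rintro _ _ ⟨d, hd, k, hk, rfl⟩ ⟨d', hd', k', hk', rfl⟩
            refine ⟨d * (k * d' * k⁻¹), D.mul_mem hd ?_, k * k', K.mul_mem hk hk', by group⟩
            have := hn k⁻¹ (K.inv_mem hk) d' hd'
            rwa [inv_inv] at this
          inv_mem' := by
            rintro _ ⟨d, hd, k, hk, rfl⟩
            refine ⟨k⁻¹ * d⁻¹ * k, hn k hk _ (D.inv_mem hd), k⁻¹, K.inv_mem hk, by group⟩ } := by
      apply sup_le
      · intro d hd
        exact ⟨d, hd, 1, K.one_mem, by simp⟩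
      · intro k hk
        exact ⟨1, D.one_mem, k, hk, by simp⟩
    obtain ⟨d, hd, k, hk, rfl⟩ := key hx
    have hkN : k ∈ N := by
      have := N.mul_mem (N.inv_mem (h2 hd)) hxN
      simpa using this
    exact D.mul_mem hd (h1 ⟨hk, hkN⟩)
  · intro x hx
    exact ⟨(le_sup_left : D ≤ D ⊔ K) hx, h2 hx⟩

/-- countable closing-off -/
theorem chain_step (hC : CutsOfSplit) (hT : TreeOfCuts) (hE : ExtendHom) (hF : FinSplitOfFG)
    (hR : SplitRes) (hPr : SplitProd) (hB : SplitOfBasis) [N.Normal] [N.FiniteIndex]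
    [IsFreeGroup N] (K : Subgroup G) (hKN : K ⊔ N = ⊤)
    (Φ₀ : G →* W) (P : Subgroup (G × W)) (hP : IsPH Φ₀ P) (hK : K ≤ dom P)
    (hgood : GoodG N (dom P)) (S : Set ι) (hS : NT b S ≤ dom P)
    (hSK : ∀ k ∈ K, ∀ x ∈ NT b S, k⁻¹ * x * k ∈ NT b S) (T₀ : Finset ι)
    (hT₀ : dom P ⊓ N ≤ NT b (S ∪ T₀)) (I : Finset ι) :
    ∃ P' : Subgroup (G × W), P ≤ P' ∧ IsPH Φ₀ P' ∧
      ∃ S'' : Set ι, dom P' ⊓ N = NT b S'' ∧ (I : Set ι) ⊆ S'' := by
  classical
  obtain ⟨R, hRf, hRK, hRR⟩ := exists_reps (N := N) K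
  -- next finite set
  have hnext : ∀ T : Finset ι, ∃ T' : Finset ι, T ⊆ T' ∧
      ∀ r ∈ R, ∀ τ ∈ T, r⁻¹ * ((b τ : N) : G) * r ∈ NT b (T' : Set ι) := by
    intro T
    let X : Set G := (fun p : G × ι => p.1⁻¹ * ((b p.2 : N) : G) * p.1) '' (R ×ˢ (T : Set ι))
    have hXf : X.Finite := (hRf.prod (Finset.finite_toSet T)).image _
    have hXN : X ⊆ N := by
      rintro _ ⟨⟨r, τ⟩, _, rfl⟩
      have := Subgroup.Normal.conj_mem (inferInstance : N.Normal) _ (b τ).2 r⁻¹
      simpa using this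
    obtain ⟨T', hT'⟩ := exists_finset_NT_set b X hXf hXN
    refine ⟨T ∪ T', Finset.subset_union_left, ?_⟩
    intro r hr τ hτ
    exact NT_mono b (by simp) (hT' ⟨(r, τ), ⟨hr, hτ⟩, rfl⟩)
  choose nx hnx1 hnx2 using hnext
  let T : ℕ → Finset ι := fun k => Nat.rec (motive := fun _ => Finset ι) (T₀ ∪ I) (fun _ X => nx X) k
  have hTs : ∀ k, T (k + 1) = nx (T k) := fun k => rfl
  have hT0 : T 0 = T₀ ∪ I := rfl
  have hTsub : ∀ k, T k ⊆ T (k + 1) := fun k => by rw [hTs]; exact hnx1 _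
  have hTmono : Monotone T := monotone_nat_of_le_succ hTsub
  let A : ℕ → Subgroup G := fun k => NT b (S ∪ (T k : Set ι))
  have hAdef : ∀ k, A k = NT b (S ∪ T k) := fun _ => rfl
  have hAmono : ∀ k, A k ≤ A (k + 1) := fun k =>
    NT_mono b (Set.union_subset_union_right _ (by exact_mod_cast hTsub k))
  have hLA0 : dom P ⊓ N ≤ A 0 := by
    refine le_trans hT₀ (NT_mono b (Set.union_subset_union_right _ ?_))
    rw [hT0]
    simp
  have hA0k : ∀ k, A 0 ≤ A k := by
    intro k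
    induction k with
    | zero => exact le_rfl
    | succ k ih => exact ih.trans (hAmono k)
  have hLA : ∀ k, K ⊓ N ≤ A k := fun k =>
    le_trans (inf_le_inf_right N hK) (hLA0.trans (hA0k k))
  have hAN : ∀ k, A k ≤ N := fun k => NT_le b _
  have hSA : ∀ k, NT b S ≤ A k := fun k => NT_mono b Set.subset_union_left
  let D : ℕ → Subgroup G := fun k => core K (A k)
  have hDA : ∀ k, D k ≤ A k := fun k => core_le K _
  have hDN : ∀ k, D k ≤ N := fun k => (hDA k).trans (hAN k)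
  have hDmono : ∀ k, D k ≤ D (k + 1) := fun k => core_mono K (hAmono k)
  have hSD : ∀ k, NT b S ≤ D k := fun k x hx h hh => hSA k (hSK h hh x hx)
  have hLD : ∀ k, K ⊓ N ≤ D k := by
    intro k x hx h hh
    have h1 : h⁻¹ * x * h ∈ K ⊓ N := by
      refine ⟨K.mul_mem (K.mul_mem (K.inv_mem hh) hx.1) hh, ?_⟩
      have := Subgroup.Normal.conj_mem (inferInstance : N.Normal) _ hx.2 h⁻¹
      simpa using this
    exact hLA k h1
  have hDP : dom P ⊓ N ≤ D 0 := by
    intro x hx h hh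
    apply hLA0
    refine ⟨(dom P).mul_mem ((dom P).mul_mem ((dom P).inv_mem (hK hh)) hx.1) (hK hh), ?_⟩
    have := Subgroup.Normal.conj_mem (inferInstance : N.Normal) _ hx.2 h⁻¹
    simpa using this
  have hAD : ∀ k, A k ≤ D (k + 1) := by
    intro k x hx
    have hx2 : x ∈ core K (A (k + 1)) := by
      rw [mem_core_iff_reps (hLA (k + 1)) hRK hRR]
      intro r hr
      -- the set of x with r⁻¹ x r ∈ A (k+1) is a subgroup containing the generators
      have hgen : A k ≤ (A (k + 1)).comap (MulAut.conj r⁻¹).toMonoidHom := by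
        rw [hAdef]
        unfold NT
        rw [Subgroup.closure_le]
        rintro _ ⟨i, hi, rfl⟩
        show (MulAut.conj r⁻¹).toMonoidHom ((b i : N) : G) ∈ A (k + 1)
        have e : (MulAut.conj r⁻¹).toMonoidHom ((b i : N) : G) = r⁻¹ * ((b i : N) : G) * r := by
          show (MulAut.conj r⁻¹) ((b i : N) : G) = _
          rw [MulAut.conj_apply, inv_inv]
        rw [e]
        rcases hi with hi | hi
        · exact hSA (k + 1) (hSK r (hRK hr) _ (mem_NT b hi))
        · have h4 := hnx2 (T k) r hr i (by exact_mod_cast hi)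
          rw [← hTs] at h4
          exact NT_mono b Set.subset_union_right h4
      have := hgen hx
      have h5 : (MulAut.conj r⁻¹).toMonoidHom x ∈ A (k + 1) := this
      have e : (MulAut.conj r⁻¹).toMonoidHom x = r⁻¹ * x * r := by
        show (MulAut.conj r⁻¹) x = _
        rw [MulAut.conj_apply, inv_inv]
      rw [e] at h5
      exact h5
    exact hx2
  have hDgood : ∀ k, GoodG N (D k) := fun k =>
    GoodG.core hR hPr K (good_NT b hB _) (hLA k)
  let M : ℕ → Subgroup G := fun k => D k ⊔ K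
  have hMN : ∀ k, M k ⊓ N = D k := fun k =>
    sup_inf_eq (fun k' hk' x hx => core_conj hk' hx) (hLD k) (hDN k)
  have hMgood : ∀ k, GoodG N (M k) := fun k =>
    (hDgood k).congr (by rw [hMN k, inf_eq_left.2 (hDN k)])
  have hKM : ∀ k, K ≤ M k := fun k => le_sup_right
  have hMmono : ∀ k, M k ≤ M (k + 1) := fun k => sup_le_sup (hDmono k) le_rfl
  have hFg : ∀ k, ∃ F : Set G, F.Finite ∧ D k = NT b S ⊔ Subgroup.closure F := fun k =>
    rel_fg b hC hT hE hF hR S (T k) (D k) (hDgood k) (hSD k) (hDA k)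
  have hdomM : dom P ≤ M 0 := by
    intro x hx
    have hx' : x ∈ N ⊔ K := by rw [sup_comm, hKN]; trivial
    obtain ⟨n, hn, k, hk, rfl⟩ := Subgroup.mem_sup_of_normal_left.1 hx'
    have hn' : n ∈ dom P := by
      have := (dom P).mul_mem hx ((dom P).inv_mem (hK hk))
      simpa using this
    exact (M 0).mul_mem ((le_sup_left : D 0 ≤ M 0) (hDP ⟨hn', hn⟩))
      ((le_sup_right : K ≤ M 0) hk)
  -- the start
  have hQ0 : ∃ Q : {Q : Subgroup (G × W) // IsPH Φ₀ Q ∧ dom Q = M 0}, P ≤ Q.1 := by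
    obtain ⟨F, hFf, hDF⟩ := hFg 0
    have hsup : dom P ⊔ N = ⊤ := by
      rw [eq_top_iff, ← hKN]
      exact sup_le_sup hK le_rfl
    obtain ⟨Q, q1, q2, q3⟩ := ext_ph hC hT hE hF hR N Φ₀ P hP hsup hgood F hFf
    refine ⟨⟨Q, q2, ?_⟩, q1⟩
    rw [q3]
    apply le_antisymm
    · apply sup_le hdomM
      have : Subgroup.closure F ≤ D 0 := by rw [hDF]; exact le_sup_right
      exact this.trans le_sup_left
    · apply sup_le
      · rw [hDF]
        exact sup_le_sup hS le_rfl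
      · exact hK.trans le_sup_left
  have hQs : ∀ k, ∀ Q : {Q : Subgroup (G × W) // IsPH Φ₀ Q ∧ dom Q = M k},
      ∃ Q' : {Q : Subgroup (G × W) // IsPH Φ₀ Q ∧ dom Q = M (k + 1)}, Q.1 ≤ Q'.1 := by
    rintro k ⟨Q, hQ, hQd⟩
    obtain ⟨F, hFf, hDF⟩ := hFg (k + 1)
    have hsup : dom Q ⊔ N = ⊤ := by
      rw [hQd, eq_top_iff, ← hKN]
      exact sup_le_sup (hKM k) le_rfl
    obtain ⟨Q', q1, q2, q3⟩ := ext_ph hC hT hE hF hR N Φ₀ Q hQ hsup (by rw [hQd]; exact hMgood k)
      F hFf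
    refine ⟨⟨Q', q2, ?_⟩, q1⟩
    rw [q3, hQd]
    apply le_antisymm
    · apply sup_le (hMmono k)
      have : Subgroup.closure F ≤ D (k + 1) := by rw [hDF]; exact le_sup_right
      exact this.trans le_sup_left
    · apply sup_le
      · rw [hDF]
        exact sup_le_sup ((hSD k).trans le_sup_left) le_rfl
      · exact (hKM k).trans le_sup_left
  obtain ⟨Q0, hQ0P⟩ := hQ0
  choose f hf using hQs
  let Qs : (k : ℕ) → {Q : Subgroup (G × W) // IsPH Φ₀ Q ∧ dom Q = M k} :=
    fun k => Nat.rec Q0 (fun k Q => f k Q) k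
  have hQsucc : ∀ k, (Qs k).1 ≤ (Qs (k + 1)).1 := fun k => hf k (Qs k)
  have hQmono : Monotone (fun k => (Qs k).1) := monotone_nat_of_le_succ hQsucc
  let c : Set (Subgroup (G × W)) := Set.range (fun k => (Qs k).1)
  have hcne : c.Nonempty := ⟨_, 0, rfl⟩
  have hcd : DirectedOn (· ≤ ·) c := by
    rintro _ ⟨k, rfl⟩ _ ⟨l, rfl⟩
    exact ⟨_, ⟨max k l, rfl⟩, hQmono (le_max_left k l), hQmono (le_max_right k l)⟩
  have hdomc : ∀ g, g ∈ dom (sSup c) ↔ ∃ k, g ∈ M k := by
    intro g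
    rw [mem_dom_sSup hcne hcd]
    constructor
    · rintro ⟨_, ⟨k, rfl⟩, hg⟩
      exact ⟨k, by rw [← (Qs k).2.2]; exact hg⟩
    · rintro ⟨k, hg⟩
      exact ⟨_, ⟨k, rfl⟩, by show g ∈ dom (Qs k).1; rw [(Qs k).2.2]; exact hg⟩
  refine ⟨sSup c, ?_, ?_, S ∪ ⋃ k, (T k : Set ι), ?_, ?_⟩
  · have h0 : (Qs 0).1 ≤ sSup c := le_sSup ⟨0, rfl⟩
    exact le_trans hQ0P h0
  · exact isPH_sSup hcne hcd (by rintro _ ⟨k, rfl⟩; exact (Qs k).2.1)
  · apply le_antisymm
    · rintro x ⟨hx, hxN⟩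
      obtain ⟨k, hk⟩ := (hdomc x).1 hx
      have hxD : x ∈ D k := by rw [← hMN k]; exact ⟨hk, hxN⟩
      refine NT_mono b ?_ (hDA k hxD)
      exact Set.union_subset_union_right _ (Set.subset_iUnion (fun k => (T k : Set ι)) k)
    · apply le_inf _ (NT_le b _)
      unfold NT
      rw [Subgroup.closure_le]
      rintro _ ⟨i, hi, rfl⟩
      have : ∃ k, i ∈ S ∪ (T k : Set ι) := by
        rcases hi with hi | hi
        · exact ⟨0, Or.inl hi⟩
        · obtain ⟨k, hk⟩ := Set.mem_iUnion.1 hi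
          exact ⟨k, Or.inr hk⟩
      obtain ⟨k, hk⟩ := this
      rw [SetLike.mem_coe, hdomc]
      exact ⟨k + 1, (le_sup_left : D (k + 1) ≤ M (k + 1)) (hAD k (mem_NT b hk))⟩
  · intro i hi
    refine Or.inr (Set.mem_iUnion.2 ⟨0, ?_⟩)
    rw [hT0]
    simp only [Finset.coe_union, Set.mem_union]
    exact Or.inr hi

/-- Zorn: a partial homomorphism on a basis-closed domain extends to the whole group. -/
theorem exists_total (hC : CutsOfSplit) (hT : TreeOfCuts) (hE : ExtendHom) (hF : FinSplitOfFG)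
    (hR : SplitRes) (hPr : SplitProd) (hB : SplitOfBasis) [N.Normal] [N.FiniteIndex]
    [IsFreeGroup N] (K : Subgroup G) (hKN : K ⊔ N = ⊤)
    (Φ₀ : G →* W) (P : Subgroup (G × W)) (hP : IsPH Φ₀ P) (hK : K ≤ dom P)
    (S : Set ι) (hS : dom P ⊓ N = NT b S) :
    ∃ Φ : G →* W, (∀ g w, (g, w) ∈ P → Φ g = w) ∧ LocConj Φ Φ₀ := by
  classical
  let s : Set (Subgroup (G × W)) := {Q | IsPH Φ₀ Q ∧ K ≤ dom Q ∧ ∃ S, dom Q ⊓ N = NT b S}
  obtain ⟨m, hPm, hm⟩ := zorn_le_nonempty₀ s (by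
    intro c hcs hc y hy
    have hne : c.Nonempty := ⟨y, hy⟩
    have hd : DirectedOn (· ≤ ·) c := hc.directedOn
    refine ⟨sSup c, ⟨isPH_sSup hne hd (fun Q hQ => (hcs hQ).1), ?_, ?_⟩, fun z hz => le_sSup hz⟩
    · exact (hcs hy).2.1.trans (dom_mono (le_sSup hy))
    · refine ⟨{i | ((b i : N) : G) ∈ dom (sSup c)}, ?_⟩
      apply le_antisymm
      · rintro x ⟨hx, hxN⟩
        obtain ⟨Q, hQ, hxQ⟩ := (mem_dom_sSup hne hd x).1 hx
        obtain ⟨S', hS'⟩ := (hcs hQ).2.2
        have h1 : x ∈ NT b S' := by rw [← hS']; exact ⟨hxQ, hxN⟩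
        refine NT_mono b ?_ h1
        intro i hi
        have h2 : ((b i : N) : G) ∈ dom Q ⊓ N := by rw [hS']; exact mem_NT b hi
        exact dom_mono (le_sSup hQ) h2.1
      · apply le_inf _ (NT_le b _)
        unfold NT
        rw [Subgroup.closure_le]
        rintro _ ⟨i, hi, rfl⟩
        exact hi) P ⟨hP, hK, S, hS⟩
  obtain ⟨⟨m1, m2, S', m3⟩, hmax⟩ := hm
  have hall : ∀ i, ((b i : N) : G) ∈ dom m := by
    intro i
    have hgood : GoodG N (dom m) := (good_NT b hB S').congr (by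
      rw [m3, inf_eq_left.2 (NT_le b S')])
    obtain ⟨P', p1, p2, S'', p3, p4⟩ := chain_step b hC hT hE hF hR hPr hB K hKN Φ₀ m m1 m2 hgood
      S' (by rw [← m3]; exact inf_le_left) (by
        intro k hk x hx
        rw [← m3] at hx ⊢
        refine ⟨(dom m).mul_mem ((dom m).mul_mem ((dom m).inv_mem (m2 hk)) hx.1) (m2 hk), ?_⟩
        have := Subgroup.Normal.conj_mem (inferInstance : N.Normal) _ hx.2 k⁻¹
        simpa using this) ∅ (by rw [m3]; exact NT_mono b (by simp)) {i}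
    have h1 : P' ≤ m := hmax ⟨p2, m2.trans (dom_mono p1), S'', p3⟩ p1
    have h2 : ((b i : N) : G) ∈ dom P' ⊓ N := by rw [p3]; exact mem_NT b (p4 (by simp))
    exact dom_mono h1 h2.1
  have hN : N ≤ dom m := by
    rw [← NT_univ b]
    unfold NT
    rw [Subgroup.closure_le]
    rintro _ ⟨i, _, rfl⟩
    exact hall i
  have htop : ∀ g : G, g ∈ dom m := by
    intro g
    have : (⊤ : Subgroup G) ≤ dom m := by rw [← hKN]; exact sup_le m2 hN
    exact this trivial
  obtain ⟨φ, hφ⟩ := m1.exists_hom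
  let Φ : G →* W :=
    { toFun := fun g => φ ⟨g, htop g⟩
      map_one' := map_one φ
      map_mul' := fun x y => map_mul φ ⟨x, htop x⟩ ⟨y, htop y⟩ }
  refine ⟨Φ, ?_, ?_⟩
  · intro g w hgw
    exact m1.uniq (hφ ⟨g, htop g⟩) (hPm hgw)
  · intro C hCf
    obtain ⟨a, ha⟩ := m1.loc C hCf (fun x _ => htop x)
    exact ⟨a, fun c hc => m1.uniq (hφ ⟨c, htop c⟩) (ha c hc)⟩

end chain

end Pool.Agent.TH60.LR
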