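import Pool.Agent.TH60.LR.Defs

set_option autoImplicit false

namespace Pool.Agent.TH60.LR

open Pointwise

theorem gtree_of_split (hC : CutsOfSplit) (hT : TreeOfCuts) {Γ V : Type} [Group Γ]
    [MulAction Γ V] [Nonempty V] (N : Subgroup Γ)
    [N.Normal] [N.FiniteIndex] (htf : ∀ n ∈ N, ∀ k : ℕ, 0 < k → n ^ k = 1 → n = 1)
    (hs : HasFinSplit N V) :
    ∃ (T : GTree Γ) (ι : V → T.X), Function.Injective ι ∧
      (∀ (g : Γ) (v : V), ι (g • v) = g • ι v) ∧
      (∀ n ∈ N, ∀ e : T.E, n • e = e → n = 1) ∧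
      (∀ n ∈ N, (∀ k : ℕ, 0 < k → ∀ v : V, n ^ k • v ≠ v) → ∀ x : T.X, n • x ≠ x) := by
  obtain ⟨𝓔, h1, h2, h3, h4, h5, h6, h7, h8⟩ := hC Γ V N htf hs
  obtain ⟨T, ι, κ, a1, a2, a3, a4, a5⟩ := hT Γ V 𝓔 h1 h2 h3 h4 h5 h6
  refine ⟨T, ι, a1, a2, ?_, ?_⟩
  · intro n hn e he
    exact h7 (κ e) (a3 e) n hn (by rw [← a4, he])
  · intro n hn hk x
    obtain ⟨v⟩ := ‹Nonempty V›
    obtain ⟨A, hA, e1, e2⟩ := h8 n hn hk v
    exact a5 n v A hA e1 e2 x

theorem free_tf (N : Type) [Group N] [IsFreeGroup N] (n : N) (k : ℕ) (hk : 0 < k)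
    (h : n ^ k = 1) : n = 1 := by
  let e := IsFreeGroup.toFreeGroup N
  have h1 : (e n) ^ k = (1 : FreeGroup (IsFreeGroup.Generators N)) := by
    rw [← map_pow, h, map_one]
  have h2 : e n = 1 := by
    have := pow_left_injective (M := FreeGroup (IsFreeGroup.Generators N)) (n := k) (by omega)
    apply this
    simpa using h1
  exact (MulEquiv.map_eq_one_iff e).1 h2

theorem free_sub_tf {Γ : Type} [Group Γ] (N : Subgroup Γ) [IsFreeGroup N] :
    ∀ n ∈ N, ∀ k : ℕ, 0 < k → n ^ k = 1 → n = 1 := by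
  intro n hn k hk h
  have := free_tf N ⟨n, hn⟩ k hk (Subtype.ext (by simpa using h))
  simpa using congrArg Subtype.val this

/-- Extension of homomorphisms over a relatively finitely generated good pair. -/
theorem ext_rel (hC : CutsOfSplit) (hT : TreeOfCuts) (hE : ExtendHom) (hF : FinSplitOfFG)
    {Γ W : Type} [Group Γ] [Group W] (N : Subgroup Γ) [N.Normal] [N.FiniteIndex]
    [IsFreeGroup N] (M : Subgroup Γ) (hgood : HasSplit N (Γ ⧸ M)) (F : Set Γ) (hFf : F.Finite)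
    (hgen : M ⊔ Subgroup.closure F = ⊤) (Φ₀ : Γ →* W) (Φ : M →* W)
    (hloc : LocConj Φ (Φ₀.comp M.subtype)) :
    ∃ Φ' : Γ →* W, (∀ m : M, Φ' m = Φ m) ∧ LocConj Φ' Φ₀ := by
  have hst : MulAction.stabilizer Γ ((1 : Γ) : Γ ⧸ M) = M := by
    ext g
    rw [MulAction.mem_stabilizer_iff, MulAction.Quotient.smul_coe, smul_eq_mul, mul_one,
      eq_comm, QuotientGroup.eq, inv_one, one_mul]
  have hfs : HasFinSplit N (Γ ⧸ M) := by
    refine hF Γ (Γ ⧸ M) N hgood ((1 : Γ) : Γ ⧸ M) ?_ F hFf ?_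
    · intro v
      induction v using QuotientGroup.induction_on with
      | H g => exact ⟨g, by rw [MulAction.Quotient.smul_coe, smul_eq_mul, mul_one]⟩
    · rw [hst]; exact hgen
  have : Nonempty (Γ ⧸ M) := ⟨((1 : Γ) : Γ ⧸ M)⟩
  obtain ⟨T, ι, i1, i2, i3, -⟩ := gtree_of_split hC hT N (free_sub_tf N) hfs
  refine hE Γ W T (ι ((1 : Γ) : Γ ⧸ M)) M ?_ ?_ Φ₀ Φ hloc
  · intro g
    rw [← i2, i1.eq_iff, ← MulAction.mem_stabilizer_iff, hst]
  · intro e
    have hinj : Function.Injective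
        (fun s : MulAction.stabilizer Γ e => (QuotientGroup.mk (s : Γ) : Γ ⧸ N)) := by
      intro s s' hss
      have h1 : (s : Γ)⁻¹ * s' ∈ N := QuotientGroup.eq.1 hss
      have h2 : ((s : Γ)⁻¹ * s') • e = e := by
        have := MulAction.mem_stabilizer_iff.1 (s⁻¹ * s').2
        simpa using this
      have h3 := i3 _ h1 e h2
      apply Subtype.ext
      exact (inv_mul_eq_one.1 h3)
    have : Finite (Γ ⧸ N) := inferInstance
    exact Finite.of_injective _ hinj

/-- A good subgroup of a free group which is relatively of finite corank is a retract. -/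
theorem good_retract (hC : CutsOfSplit) (hT : TreeOfCuts) (hE : ExtendHom) (hF : FinSplitOfFG)
    (hR : SplitRes) {B : Type} [Group B] [IsFreeGroup B] (D : Subgroup B)
    (hgood : HasSplit B (B ⧸ D)) (F : Set B) (hFf : F.Finite)
    (hgen : D ⊔ Subgroup.closure F = ⊤) :
    ∃ ρ : B →* D, ∀ d : D, ρ d = d := by
  have : IsFreeGroup (⊤ : Subgroup B) := inferInstance
  have : Nonempty (B ⧸ D) := ⟨((1 : B) : B ⧸ D)⟩
  have hg : HasSplit (⊤ : Subgroup B) (B ⧸ D) := by
    refine hR B (B ⧸ D) (⊤ : Subgroup B) (B ⧸ D) hgood (⊤ : Subgroup B).subtype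
      (Subgroup.subtype_injective _) id Function.injective_id ?_
    intro n v
    rfl
  obtain ⟨ρ, h1, -⟩ := ext_rel hC hT hE hF (⊤ : Subgroup B) D hg F hFf hgen
    (1 : B →* D) (MonoidHom.id D) (by
      intro C hC
      refine ⟨1, fun c hc => ?_⟩
      have hfin : IsOfFinOrder (⟨c, hc⟩ : C) := isOfFinOrder_of_finite _
      obtain ⟨k, hk, hk1⟩ := hfin.exists_pow_eq_one
      have h2 : ((c : D) : B) ^ k = 1 := by
        have := congrArg (fun x : C => ((x : D) : B)) hk1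
        simpa using this
      have h3 := free_tf B _ k hk h2
      have : c = 1 := Subtype.ext h3
      subst this
      simp)
  exact ⟨ρ, h1⟩

end Pool.Agent.TH60.LR
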