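import Pool.Agent.TH60.LR.Ext

set_option autoImplicit false

namespace Pool.Agent.TH60.LR

open Pointwise

section good

variable {G : Type} [Group G] (N : Subgroup G)

/-- `D` is a good subgroup of `N`. -/
def GoodG (D : Subgroup G) : Prop := HasSplit N (N ⧸ D.subgroupOf N)

variable {N}

/-- transfer of goodness along an injective map of coset spaces -/
theorem split_coset (hR : SplitRes) {B A : Type} [Group B] [Group A] [IsFreeGroup A]
    (D : Subgroup B) (D' : Subgroup A) (hs : HasSplit B (B ⧸ D)) (j : A →* B)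
    (hj : Function.Injective j) (h : ∀ a : A, j a ∈ D ↔ a ∈ D') : HasSplit A (A ⧸ D') := by
  have key : ∀ a b : A, (QuotientGroup.leftRel D') a b ↔ (QuotientGroup.leftRel D) (j a) (j b) := by
    intro a b
    rw [QuotientGroup.leftRel_apply, QuotientGroup.leftRel_apply, ← h, map_mul, map_inv]
  let ι : A ⧸ D' → B ⧸ D := Quotient.map' (fun a => j a) (fun a b hab => (key a b).1 hab)
  have : Nonempty (A ⧸ D') := ⟨((1 : A) : A ⧸ D')⟩
  refine hR B (B ⧸ D) A (A ⧸ D') hs j hj ι ?_ ?_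
  · intro x y
    induction x using QuotientGroup.induction_on with
    | H a =>
      induction y using QuotientGroup.induction_on with
      | H b =>
        intro hab
        have h1 : ((j a : B) : B ⧸ D) = ((j b : B) : B ⧸ D) := hab
        rw [QuotientGroup.eq, ← map_inv, ← map_mul, h] at h1
        exact QuotientGroup.eq.2 h1
  · intro n v
    induction v using QuotientGroup.induction_on with
    | H a =>
      show ((j (n * a) : B) : B ⧸ D) = j n • ((j a : B) : B ⧸ D)
      rw [map_mul, MulAction.Quotient.smul_coe, smul_eq_mul]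

theorem GoodG.sub (hR : SplitRes) [IsFreeGroup N] {D : Subgroup G} (hD : GoodG N D)
    {N' : Subgroup G} [IsFreeGroup N'] (hN' : N' ≤ N) : HasSplit N' (N' ⧸ D.subgroupOf N') := by
  refine split_coset hR (D.subgroupOf N) (D.subgroupOf N') hD (Subgroup.inclusion hN')
    (Subgroup.inclusion_injective hN') ?_
  intro a
  rw [Subgroup.mem_subgroupOf, Subgroup.mem_subgroupOf]
  rfl

theorem GoodG.inf (hR : SplitRes) (hP : SplitProd) [IsFreeGroup N] {D₁ D₂ : Subgroup G}
    (h1 : GoodG N D₁) (h2 : GoodG N D₂) : GoodG N (D₁ ⊓ D₂) := by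
  have hp := hP N _ _ h1 h2
  have : Nonempty (N ⧸ (D₁ ⊓ D₂).subgroupOf N) := ⟨((1 : N) : N ⧸ (D₁ ⊓ D₂).subgroupOf N)⟩
  have e1 : ∀ a b : N, (QuotientGroup.leftRel ((D₁ ⊓ D₂).subgroupOf N)) a b →
      ((a : N ⧸ D₁.subgroupOf N), (a : N ⧸ D₂.subgroupOf N)) =
      ((b : N ⧸ D₁.subgroupOf N), (b : N ⧸ D₂.subgroupOf N)) := by
    intro a b hab
    rw [QuotientGroup.leftRel_apply, Subgroup.mem_subgroupOf, Subgroup.mem_inf] at hab
    rw [Prod.mk.injEq, QuotientGroup.eq, QuotientGroup.eq, Subgroup.mem_subgroupOf,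
      Subgroup.mem_subgroupOf]
    exact hab
  refine hR N ((N ⧸ D₁.subgroupOf N) × (N ⧸ D₂.subgroupOf N)) N (N ⧸ (D₁ ⊓ D₂).subgroupOf N) hp
    (MonoidHom.id N) Function.injective_id
    (Quotient.lift (fun a : N => ((a : N ⧸ D₁.subgroupOf N), (a : N ⧸ D₂.subgroupOf N))) e1) ?_ ?_
  · intro x y
    induction x using QuotientGroup.induction_on with
    | H a =>
      induction y using QuotientGroup.induction_on with
      | H b =>
        intro hab
        have hab' : ((a : N ⧸ D₁.subgroupOf N), (a : N ⧸ D₂.subgroupOf N)) =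
          ((b : N ⧸ D₁.subgroupOf N), (b : N ⧸ D₂.subgroupOf N)) := hab
        rw [Prod.mk.injEq, QuotientGroup.eq, QuotientGroup.eq, Subgroup.mem_subgroupOf,
          Subgroup.mem_subgroupOf] at hab'
        rw [QuotientGroup.eq, Subgroup.mem_subgroupOf, Subgroup.mem_inf]
        exact hab'
  · intro n v
    induction v using QuotientGroup.induction_on with
    | H a => rfl

theorem GoodG.conj (hR : SplitRes) [N.Normal] [IsFreeGroup N] {D : Subgroup G}
    (hD : GoodG N D) (g : G) (D' : Subgroup G) (hD' : ∀ x, x ∈ D' ↔ g⁻¹ * x * g ∈ D) :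
    GoodG N D' := by
  let j : N →* N := (MulAut.conjNormal (g⁻¹ : G)).toMonoidHom
  refine split_coset hR (D.subgroupOf N) (D'.subgroupOf N) hD j
    (MulAut.conjNormal (g⁻¹ : G)).injective ?_
  intro a
  rw [Subgroup.mem_subgroupOf, Subgroup.mem_subgroupOf, hD']
  have : ((j a : N) : G) = g⁻¹ * a * g := by
    show ((MulAut.conjNormal (g⁻¹ : G) a : N) : G) = _
    rw [MulAut.conjNormal_apply, inv_inv]
  rw [this]

theorem hs_congr {B : Type} [Group B] {D D' : Subgroup B} (h : D = D')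
    (hs : HasSplit B (B ⧸ D)) : HasSplit B (B ⧸ D') := by
  subst h
  exact hs

theorem GoodG.congr {D D' : Subgroup G} (h : GoodG N D) (hDD : D ⊓ N = D' ⊓ N) : GoodG N D' := by
  have : D.subgroupOf N = D'.subgroupOf N := by
    rw [← Subgroup.inf_subgroupOf_right D, ← Subgroup.inf_subgroupOf_right D', hDD]
  exact hs_congr this h

/-- the intersection of the `K`-conjugates of `A` -/
def core (K A : Subgroup G) : Subgroup G where
  carrier := {x | ∀ h ∈ K, h⁻¹ * x * h ∈ A}
  one_mem' := by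
    intro h _
    simp
  mul_mem' := by
    intro x y hx hy h hh
    have : h⁻¹ * (x * y) * h = (h⁻¹ * x * h) * (h⁻¹ * y * h) := by group
    rw [this]
    exact A.mul_mem (hx h hh) (hy h hh)
  inv_mem' := by
    intro x hx h hh
    have : h⁻¹ * x⁻¹ * h = (h⁻¹ * x * h)⁻¹ := by group
    rw [this]
    exact A.inv_mem (hx h hh)

theorem mem_core {K A : Subgroup G} {x : G} : x ∈ core K A ↔ ∀ h ∈ K, h⁻¹ * x * h ∈ A := Iff.rfl

theorem core_le (K A : Subgroup G) : core K A ≤ A := by
  intro x hx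
  have := hx 1 K.one_mem
  simpa using this

theorem core_conj {K A : Subgroup G} {x k : G} (hk : k ∈ K) (hx : x ∈ core K A) :
    k⁻¹ * x * k ∈ core K A := by
  intro h hh
  have : h⁻¹ * (k⁻¹ * x * k) * h = (k * h)⁻¹ * x * (k * h) := by group
  rw [this]
  exact hx _ (K.mul_mem hk hh)

theorem core_mono (K : Subgroup G) {A B : Subgroup G} (h : A ≤ B) : core K A ≤ core K B :=
  fun _ hx k hk => h (hx k hk)

/-- finitely many representatives of `K` modulo `K ⊓ N` -/
theorem exists_reps [N.FiniteIndex] (K : Subgroup G) :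
    ∃ R : Set G, R.Finite ∧ R ⊆ K ∧ ∀ k ∈ K, ∃ r ∈ R, r⁻¹ * k ∈ K ⊓ N := by
  classical
  have hfin : Finite (G ⧸ N) := inferInstance
  let f : G ⧸ N → G := fun q => if h : ∃ k ∈ K, (k : G ⧸ N) = q then h.choose else 1
  refine ⟨Set.range f, Set.finite_range f, ?_, ?_⟩
  · rintro _ ⟨q, rfl⟩
    show f q ∈ K
    by_cases h : ∃ k ∈ K, (k : G ⧸ N) = q
    · have : f q = h.choose := dif_pos h
      rw [this]
      exact h.choose_spec.1
    · have : f q = 1 := dif_neg h
      rw [this]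
      exact K.one_mem
  · intro k hk
    refine ⟨f (k : G ⧸ N), ⟨_, rfl⟩, ?_⟩
    have h : ∃ k' ∈ K, (k' : G ⧸ N) = (k : G ⧸ N) := ⟨k, hk, rfl⟩
    have e : f (k : G ⧸ N) = h.choose := dif_pos h
    rw [e]
    refine ⟨K.mul_mem (K.inv_mem h.choose_spec.1) hk, ?_⟩
    exact QuotientGroup.eq.1 h.choose_spec.2

theorem mem_core_iff_reps {K A : Subgroup G} (hKA : K ⊓ N ≤ A) {R : Set G} (hRK : R ⊆ K)
    (hR : ∀ k ∈ K, ∃ r ∈ R, r⁻¹ * k ∈ K ⊓ N) {x : G} :
    x ∈ core K A ↔ ∀ r ∈ R, r⁻¹ * x * r ∈ A := by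
  constructor
  · intro h r hr
    exact h r (hRK hr)
  · intro h k hk
    obtain ⟨r, hr, hrk⟩ := hR k hk
    have e : k⁻¹ * x * k = (r⁻¹ * k)⁻¹ * (r⁻¹ * x * r) * (r⁻¹ * k) := by group
    rw [e]
    exact A.mul_mem (A.mul_mem (A.inv_mem (hKA hrk)) (h r hr)) (hKA hrk)

theorem GoodG.core (hR : SplitRes) (hP : SplitProd) [N.Normal] [N.FiniteIndex] [IsFreeGroup N]
    (K : Subgroup G) {A : Subgroup G} (hA : GoodG N A) (hKA : K ⊓ N ≤ A) : GoodG N (core K A) := by
  classical
  obtain ⟨R, hRf, hRK, hRR⟩ := exists_reps (N := N) K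
  -- conjugates
  have hconj : ∀ r : G, ∃ D : Subgroup G, ∀ x, x ∈ D ↔ r⁻¹ * x * r ∈ A := by
    intro r
    refine ⟨A.map (MulAut.conj r).toMonoidHom, ?_⟩
    intro x
    rw [Subgroup.mem_map]
    constructor
    · rintro ⟨y, hy, rfl⟩
      have : r⁻¹ * ((MulAut.conj r).toMonoidHom y) * r = y := by
        simp [MulAut.conj_apply, mul_assoc]
      rw [this]; exact hy
    · intro h
      refine ⟨_, h, ?_⟩
      simp [MulAut.conj_apply, mul_assoc]
  choose D hD using hconj
  have key : ∀ S : Finset G, ∃ D' : Subgroup G, GoodG N D' ∧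
      ∀ x, x ∈ D' ↔ (x ∈ A ∧ ∀ r ∈ S, r⁻¹ * x * r ∈ A) := by
    intro S
    induction S using Finset.induction_on with
    | empty => exact ⟨A, hA, fun x => by simp⟩
    | insert r S _ ih =>
      obtain ⟨D', h1, h2⟩ := ih
      refine ⟨D' ⊓ D r, h1.inf hR hP (hA.conj hR r (D r) (hD r)), fun x => ?_⟩
      rw [Subgroup.mem_inf, h2, hD, Finset.forall_mem_insert]
      tauto
  obtain ⟨D', h1, h2⟩ := key hRf.toFinset
  have : LR.core K A = D' := by
    ext x
    rw [h2, mem_core_iff_reps hKA hRK hRR]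
    constructor
    · intro h
      refine ⟨?_, fun r hr => h r (by simpa using hr)⟩
      have := (mem_core_iff_reps hKA hRK hRR).2 h
      exact core_le K A this
    · rintro ⟨_, h⟩ r hr
      exact h r (by simpa using hr)
  rw [this]
  exact h1

end good

end Pool.Agent.TH60.LR
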