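import Pool.Agent.TH60.LR.Good

set_option autoImplicit false

namespace Pool.Agent.TH60.LR

open Pointwise

section part

variable {G W : Type} [Group G] [Group W]

/-- domain of a partial homomorphism given by its graph -/
def dom (P : Subgroup (G × W)) : Subgroup G := P.map (MonoidHom.fst G W)

theorem mem_dom {P : Subgroup (G × W)} {g : G} : g ∈ dom P ↔ ∃ w, (g, w) ∈ P := by
  unfold dom
  rw [Subgroup.mem_map]
  constructor
  · rintro ⟨⟨a, w⟩, h, rfl⟩
    exact ⟨w, h⟩
  · rintro ⟨w, h⟩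
    exact ⟨(g, w), h, rfl⟩

theorem dom_mono {P P' : Subgroup (G × W)} (h : P ≤ P') : dom P ≤ dom P' := by
  intro g hg
  rw [mem_dom] at hg ⊢
  obtain ⟨w, hw⟩ := hg
  exact ⟨w, h hw⟩

/-- `P` is the graph of a partial homomorphism which is locally conjugate to `Φ₀`. -/
structure IsPH (Φ₀ : G →* W) (P : Subgroup (G × W)) : Prop where
  func : ∀ w, ((1 : G), w) ∈ P → w = 1
  loc : ∀ C : Subgroup G, Finite C → C ≤ dom P → ∃ a : W, ∀ c ∈ C, (c, a * Φ₀ c * a⁻¹) ∈ P

theorem IsPH.uniq {Φ₀ : G →* W} {P : Subgroup (G × W)} (h : IsPH Φ₀ P) {g : G} {w w' : W}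
    (h1 : (g, w) ∈ P) (h2 : (g, w') ∈ P) : w = w' := by
  have := P.mul_mem (P.inv_mem h1) h2
  have e : (g, w)⁻¹ * (g, w') = ((1 : G), w⁻¹ * w') := by
    ext <;> simp
  rw [e] at this
  exact (inv_mul_eq_one.1 (h.func _ this))

/-- the homomorphism given by a graph -/
theorem IsPH.exists_hom {Φ₀ : G →* W} {P : Subgroup (G × W)} (h : IsPH Φ₀ P) :
    ∃ φ : dom P →* W, ∀ m : dom P, ((m : G), φ m) ∈ P := by
  have hex : ∀ m : dom P, ∃ w, ((m : G), w) ∈ P := fun m => mem_dom.1 m.2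
  choose f hf using hex
  refine ⟨MonoidHom.mk' f ?_, hf⟩
  intro a b
  have h1 : (((a * b : dom P) : G), f a * f b) ∈ P := by
    have := P.mul_mem (hf a) (hf b)
    exact this
  exact h.uniq (hf _) h1

/-- the graph of a homomorphism of a subgroup -/
theorem graph_isPH {Φ₀ : G →* W} (M : Subgroup G) (φ : M →* W)
    (hloc : LocConj φ (Φ₀.comp M.subtype)) :
    ∃ P : Subgroup (G × W), IsPH Φ₀ P ∧ dom P = M ∧ ∀ (g : G) (w : W),
      (g, w) ∈ P ↔ ∃ hg : g ∈ M, φ ⟨g, hg⟩ = w := by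
  have hmem : ∀ (g : G) (w : W), (g, w) ∈ (M.subtype.prod φ).range ↔
      ∃ hg : g ∈ M, φ ⟨g, hg⟩ = w := by
    intro g w
    rw [MonoidHom.mem_range]
    constructor
    · rintro ⟨m, hm⟩
      rw [MonoidHom.prod_apply, Prod.mk.injEq] at hm
      obtain ⟨h1, h2⟩ := hm
      subst h1
      exact ⟨m.2, h2⟩
    · rintro ⟨hg, hw⟩
      exact ⟨⟨g, hg⟩, by rw [MonoidHom.prod_apply, hw]; rfl⟩
  have hdom : dom (M.subtype.prod φ).range = M := by
    ext g
    rw [mem_dom]
    constructor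
    · rintro ⟨w, hw⟩
      rw [hmem] at hw
      exact hw.1
    · intro hg
      exact ⟨φ ⟨g, hg⟩, (hmem _ _).2 ⟨hg, rfl⟩⟩
  refine ⟨(M.subtype.prod φ).range, ⟨?_, ?_⟩, hdom, hmem⟩
  · intro w hw
    rw [hmem] at hw
    obtain ⟨h1, h2⟩ := hw
    have : (⟨1, h1⟩ : M) = 1 := rfl
    rw [this, map_one] at h2
    exact h2.symm
  · intro C hC hCM
    rw [hdom] at hCM
    have hfin : Finite (C.subgroupOf M) := by
      have : Function.Injective (fun x : C.subgroupOf M => (⟨((x : M) : G), x.2⟩ : C)) := by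
        intro x y hxy
        have := congrArg (fun z : C => (z : G)) hxy
        exact Subtype.ext (Subtype.ext this)
      exact Finite.of_injective _ this
    obtain ⟨a, ha⟩ := hloc (C.subgroupOf M) hfin
    refine ⟨a, fun c hc => ?_⟩
    rw [hmem]
    refine ⟨hCM hc, ?_⟩
    have := ha ⟨c, hCM hc⟩ (by rw [Subgroup.mem_subgroupOf]; exact hc)
    rw [this]
    rfl

theorem isFree_of_injective {A B : Type} [Group A] [Group B] [IsFreeGroup B] (j : A →* B)
    (hj : Function.Injective j) : IsFreeGroup A :=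
  IsFreeGroup.ofMulEquiv (MonoidHom.ofInjective hj).symm

/-- extension of a partial homomorphism from a good subgroup by finitely many elements -/
theorem ext_ph (hC : CutsOfSplit) (hT : TreeOfCuts) (hE : ExtendHom) (hF : FinSplitOfFG)
    (hR : SplitRes) (N : Subgroup G) [N.Normal] [N.FiniteIndex] [IsFreeGroup N]
    (Φ₀ : G →* W) (P : Subgroup (G × W)) (hP : IsPH Φ₀ P) (hsup : dom P ⊔ N = ⊤)
    (hgood : GoodG N (dom P)) (F : Set G) (hFf : F.Finite) :
    ∃ P' : Subgroup (G × W), P ≤ P' ∧ IsPH Φ₀ P' ∧ dom P' = dom P ⊔ Subgroup.closure F := by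
  obtain ⟨M, hM⟩ : ∃ M, M = dom P := ⟨_, rfl⟩
  rw [← hM] at hsup hgood
  obtain ⟨M', hM'⟩ : ∃ M', M' = M ⊔ Subgroup.closure F := ⟨_, rfl⟩
  rw [← hM, ← hM']
  have hle : M ≤ M' := by rw [hM']; exact le_sup_left
  have hFle : F ⊆ M' := by
    intro x hx
    rw [hM']
    exact (le_sup_right : Subgroup.closure F ≤ M ⊔ Subgroup.closure F)
      (Subgroup.subset_closure hx)
  -- the normal subgroup
  let j : N.subgroupOf M' →* N :=
    { toFun := fun x => ⟨((x : M') : G), x.2⟩
      map_one' := rfl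
      map_mul' := fun _ _ => rfl }
  have hj : Function.Injective j := by
    intro x y hxy
    have := congrArg (fun z : N => (z : G)) hxy
    exact Subtype.ext (Subtype.ext this)
  have : IsFreeGroup (N.subgroupOf M') := isFree_of_injective j hj
  -- decomposition
  have hν : ∀ g : G, ∃ n : N, (n : G)⁻¹ * g ∈ M := by
    intro g
    have hg : g ∈ N ⊔ M := by rw [sup_comm, hsup]; trivial
    obtain ⟨n, hn, m, hm, rfl⟩ := Subgroup.mem_sup_of_normal_left.1 hg
    exact ⟨⟨n, hn⟩, by simpa using hm⟩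
  choose ν hν using hν
  have hkey : ∀ a b : G, a⁻¹ * b ∈ M ↔ ((ν a)⁻¹ * ν b : N) ∈ M.subgroupOf N := by
    intro a b
    rw [Subgroup.mem_subgroupOf]
    have e : (((ν a)⁻¹ * ν b : N) : G) = ((ν a : G)⁻¹ * a) * (a⁻¹ * b) * ((ν b : G)⁻¹ * b)⁻¹ := by
      rw [Subgroup.coe_mul, Subgroup.coe_inv]
      group
    rw [e]
    constructor
    · intro h
      exact M.mul_mem (M.mul_mem (hν a) h) (M.inv_mem (hν b))
    · intro h
      have h1 := M.mul_mem (M.mul_mem (M.inv_mem (hν a)) h) (hν b)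
      have e2 : ((ν a : G)⁻¹ * a)⁻¹ * (((ν a : G)⁻¹ * a) * (a⁻¹ * b) * ((ν b : G)⁻¹ * b)⁻¹) *
        ((ν b : G)⁻¹ * b) = a⁻¹ * b := by group
      rw [e2] at h1
      exact h1
  have hsplit : HasSplit (N.subgroupOf M') (M' ⧸ M.subgroupOf M') := by
    have hne : Nonempty (M' ⧸ M.subgroupOf M') := ⟨((1 : M') : M' ⧸ M.subgroupOf M')⟩
    let ι : M' ⧸ M.subgroupOf M' → N ⧸ M.subgroupOf N :=
      Quotient.lift (fun a : M' => ((ν (a : G) : N) : N ⧸ M.subgroupOf N)) (by
        intro a b hab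
        have h1 : (QuotientGroup.leftRel (M.subgroupOf M')) a b := hab
        rw [QuotientGroup.leftRel_apply, Subgroup.mem_subgroupOf] at h1
        rw [QuotientGroup.eq]
        exact (hkey a b).1 (by simpa using h1))
    refine hR N (N ⧸ M.subgroupOf N) (N.subgroupOf M') (M' ⧸ M.subgroupOf M') hgood j hj ι ?_ ?_
    · intro x y
      induction x using QuotientGroup.induction_on with
      | H a =>
        induction y using QuotientGroup.induction_on with
        | H b =>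
          intro hab
          have hab' : ((ν (a : G) : N) : N ⧸ M.subgroupOf N) = ((ν (b : G) : N) : N ⧸ M.subgroupOf N) :=
            hab
          rw [QuotientGroup.eq] at hab'
          rw [QuotientGroup.eq, Subgroup.mem_subgroupOf]
          have := (hkey a b).2 hab'
          simpa using this
    · intro n v
      induction v using QuotientGroup.induction_on with
      | H a =>
        show ((ν (((n : M') * a : M') : G) : N) : N ⧸ M.subgroupOf N) =
          j n • ((ν (a : G) : N) : N ⧸ M.subgroupOf N)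
        rw [MulAction.Quotient.smul_coe, smul_eq_mul, QuotientGroup.eq, Subgroup.mem_subgroupOf]
        have e : (((ν (((n : M') * a : M') : G))⁻¹ * (j n * ν (a : G)) : N) : G) =
            (((ν (((n : M') * a : M') : G)) : G)⁻¹ * (((n : M') * a : M') : G)) *
            ((ν (a : G) : G)⁻¹ * a)⁻¹ := by
          show ((ν (((n : M') * a : M') : G) : N) : G)⁻¹ * ((((n : M') : G)) * ((ν (a : G) : N) : G)) = _
          rw [Subgroup.coe_mul]
          group
        rw [e]
        exact M.mul_mem (hν _) (M.inv_mem (hν _))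
  -- the homomorphism
  obtain ⟨φ, hφ⟩ := hP.exists_hom
  have hMd : ∀ x : M.subgroupOf M', ((x : M') : G) ∈ dom P := fun x => by
    rw [← hM]; exact x.2
  let φ' : M.subgroupOf M' →* W :=
    { toFun := fun x => φ ⟨((x : M') : G), hMd x⟩
      map_one' := map_one φ
      map_mul' := fun x y => map_mul φ ⟨_, hMd x⟩ ⟨_, hMd y⟩ }
  have hφ' : ∀ x : M.subgroupOf M', (((x : M') : G), φ' x) ∈ P := fun x => hφ ⟨_, hMd x⟩
  have hloc : LocConj φ' ((Φ₀.comp M'.subtype).comp (M.subgroupOf M').subtype) := by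
    intro C hCf
    let C' : Subgroup G := (C.map (M.subgroupOf M').subtype).map M'.subtype
    have hC'f : Finite C' := by
      have hsurj : Function.Surjective
          (fun c : C => (⟨(((c : M.subgroupOf M') : M') : G),
            ⟨_, ⟨_, c.2, rfl⟩, rfl⟩⟩ : C')) := by
        rintro ⟨_, ⟨_, ⟨c, hc, rfl⟩, rfl⟩⟩
        exact ⟨⟨c, hc⟩, rfl⟩
      exact Finite.of_surjective _ hsurj
    have hC'le : C' ≤ dom P := by
      rintro _ ⟨_, ⟨c, _, rfl⟩, rfl⟩
      exact hMd c
    obtain ⟨a, ha⟩ := hP.loc C' hC'f hC'le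
    refine ⟨a, fun c hc => ?_⟩
    have h1 := ha (((c : M') : G)) ⟨_, ⟨c, hc, rfl⟩, rfl⟩
    exact hP.uniq (hφ' c) h1
  have hgen : M.subgroupOf M' ⊔ Subgroup.closure ((fun x : M' => (x : G)) ⁻¹' F) = ⊤ := by
    apply Subgroup.map_injective (Subgroup.subtype_injective M')
    rw [Subgroup.map_sup, Subgroup.map_subgroupOf_eq_of_le hle, MonoidHom.map_closure,
      ← MonoidHom.range_eq_map, Subgroup.range_subtype]
    have : (M'.subtype : M' → G) '' ((fun x : M' => (x : G)) ⁻¹' F) = F := by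
      ext x
      constructor
      · rintro ⟨y, hy, rfl⟩
        exact hy
      · intro hx
        exact ⟨⟨x, hFle hx⟩, hx, rfl⟩
    rw [this, hM']
  obtain ⟨Φ', h1, h2⟩ := ext_rel hC hT hE hF (N.subgroupOf M') (M.subgroupOf M') hsplit
    ((fun x : M' => (x : G)) ⁻¹' F) (hFf.preimage (Set.injOn_of_injective Subtype.val_injective))
    hgen (Φ₀.comp M'.subtype) φ' hloc
  obtain ⟨P', p1, p2, p3⟩ := graph_isPH M' Φ' h2
  refine ⟨P', ?_, p1, p2⟩
  rintro ⟨g, w⟩ hgw
  rw [p3]
  have hg : g ∈ dom P := mem_dom.2 ⟨w, hgw⟩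
  have hgM : g ∈ M := by rw [hM]; exact hg
  refine ⟨hle hgM, ?_⟩
  have h3 := h1 ⟨⟨g, hle hgM⟩, hgM⟩
  rw [h3]
  exact hP.uniq (hφ' ⟨⟨g, hle hgM⟩, hgM⟩) hgw

/-- union of a directed family of partial homomorphisms -/
theorem isPH_sSup {Φ₀ : G →* W} {c : Set (Subgroup (G × W))} (hc : c.Nonempty)
    (hd : DirectedOn (· ≤ ·) c) (h : ∀ P ∈ c, IsPH Φ₀ P) : IsPH Φ₀ (sSup c) := by
  have hmem : ∀ x, x ∈ sSup c ↔ ∃ P ∈ c, x ∈ P := fun x => Subgroup.mem_sSup_of_directedOn hc hd
  constructor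
  · intro w hw
    obtain ⟨P, hP, hw⟩ := (hmem _).1 hw
    exact (h P hP).func w hw
  · intro C hC hle
    -- find a member containing C in its domain
    have key : ∀ S : Finset G, (∀ x ∈ S, x ∈ C) → ∃ P ∈ c, ∀ x ∈ S, x ∈ dom P := by
      classical
      intro S
      induction S using Finset.induction_on with
      | empty =>
        intro _
        obtain ⟨P, hP⟩ := hc
        exact ⟨P, hP, by simp⟩
      | insert x S _ ih =>
        intro hS
        obtain ⟨P, hP, hPS⟩ := ih (fun y hy => hS y (Finset.mem_insert_of_mem hy))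
        obtain ⟨w, hw⟩ := mem_dom.1 (hle (hS x (Finset.mem_insert_self _ _)))
        obtain ⟨P', hP', hw'⟩ := (hmem _).1 hw
        obtain ⟨P'', hP'', e1, e2⟩ := hd P hP P' hP'
        refine ⟨P'', hP'', ?_⟩
        intro y hy
        rcases Finset.mem_insert.1 hy with rfl | hy
        · exact mem_dom.2 ⟨w, e2 hw'⟩
        · exact dom_mono e1 (hPS y hy)
    have hCf : (C : Set G).Finite := Set.toFinite _
    obtain ⟨P, hP, hPC⟩ := key hCf.toFinset (fun x hx => by simpa using hx)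
    obtain ⟨a, ha⟩ := (h P hP).loc C hC (fun x hx => hPC x (by simpa using hx))
    exact ⟨a, fun c hc' => (hmem _).2 ⟨P, hP, ha c hc'⟩⟩

theorem mem_dom_sSup {c : Set (Subgroup (G × W))} (hc : c.Nonempty)
    (hd : DirectedOn (· ≤ ·) c) (g : G) : g ∈ dom (sSup c) ↔ ∃ P ∈ c, g ∈ dom P := by
  rw [mem_dom]
  constructor
  · rintro ⟨w, hw⟩
    obtain ⟨P, hP, hw⟩ := (Subgroup.mem_sSup_of_directedOn hc hd).1 hw
    exact ⟨P, hP, mem_dom.2 ⟨w, hw⟩⟩
  · rintro ⟨P, hP, hg⟩
    obtain ⟨w, hw⟩ := mem_dom.1 hg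
    exact ⟨w, (Subgroup.mem_sSup_of_directedOn hc hd).2 ⟨P, hP, hw⟩⟩

end part

end Pool.Agent.TH60.LR
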